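import Mathlib
import Pool.Agent.H90.HadE

namespace Pool.Agent.Results.MP_3f3e0f_an.PowerForm

open Finset

/-- `∑_{k ≤ n} a k * x ^ k` is real-rooted: it is the zero polynomial or all its complex zeros
are real -/
def RealRooted (n : ℕ) (a : ℕ → ℝ) : Prop :=
  (∀ k ≤ n, a k = 0) ∨ ∀ z : ℂ, ∑ k ∈ range (n + 1), (a k : ℂ) * z ^ k = 0 → z.im = 0

/-- `F[p]` is real-rooted for every real-rooted `p` with strictly positive coefficients -/
def Preserves (F : ℝ → ℝ) : Prop :=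
  ∀ (n : ℕ) (a : ℕ → ℝ), (∀ k ≤ n, 0 < a k) → RealRooted n a → RealRooted n fun k => F (a k)

theorem result (F : ℝ → ℝ) (hF : ∀ x, 0 ≤ x → 0 ≤ F x) (h0 : F 0 = 0) (hP : Preserves F) :
    (∀ x, 0 ≤ x → F x = 0) ∨
      ∃ c α : ℝ, 0 < c ∧ (α = 1 ∨ 2 ≤ α) ∧ ∀ x, 0 ≤ x → F x = c * x ^ α := by
  have hp : H90.Had.Pres F := fun n a ha h => hP n a ha (Or.inr h)
  by_cases h : ∃ y, 0 < y ∧ 0 < F y
  · obtain ⟨y, hy, hFy⟩ := h
    obtain ⟨c, α, hc, hα, h⟩ := hp.form (fun x hx => hF x hx.le) hy hFy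
    refine Or.inr ⟨c, α, hc, hα, fun x hx => ?_⟩
    rcases eq_or_lt_of_le hx with rfl | hx
    · rw [h0, Real.zero_rpow (by rcases hα with h | h <;> linarith), mul_zero]
    · exact h x hx
  · push Not at h
    refine Or.inl fun x hx => ?_
    rcases eq_or_lt_of_le hx with rfl | hx'
    · exact h0
    · exact le_antisymm (h x hx') (hF x hx)

end Pool.Agent.Results.MP_3f3e0f_an.PowerForm
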